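import Pool.Agent.Helper58.NE.MainSpace
import Pool.Agent.Helper58.NE.NoEmb

/-!
# MP_460089_an: a uniformly convex space in which classical expanders are not expanders, and whose unit
ball does not embed uniformly into a Hilbert space
-/

universe u

namespace Pool.Agent.Results.MP_460089_an.ExpandersFail

open Classical in
/-- There is a uniformly convex Banach space `X` such that

* the closed unit ball of `X` admits no uniform embedding into any inner product space;
* there are `C`, `γ`, `D` such that for all `ε > 0` and `n₀` there are a connected graph `G` with at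
  least `n₀` vertices, all degrees at most `D`, with Poincaré constant at most `γ` for real functions,
  and a map `f : G → X` bounded by `C`, which moves by at most `ε` along edges and for which
  `‖f u - f v‖ ≥ 1 / 2` for at least half of the pairs. -/
theorem result :
    ∃ (X : Type) (_ : NormedAddCommGroup X) (_ : NormedSpace ℝ X) (_ : CompleteSpace X),
      UniformConvexSpace X ∧
      (∀ (H : Type u) [NormedAddCommGroup H] [InnerProductSpace ℝ H]
        (F : Metric.closedBall (0 : X) 1 → H), ¬ IsUniformEmbedding F) ∧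
      ∃ (C γ : ℝ) (D : ℕ), ∀ ε : ℝ, 0 < ε → ∀ n₀ : ℕ,
        ∃ (n : ℕ) (G : SimpleGraph (Fin n)) (f : Fin n → X),
          n₀ ≤ n ∧ G.Connected ∧ (∀ v, (G.neighborSet v).ncard ≤ D) ∧
          (∀ g : Fin n → ℝ, ∑ u, ∑ v, (g u - g v) ^ 2 ≤
            γ * n * ∑ u, ∑ v, if G.Adj u v then (g u - g v) ^ 2 else 0) ∧
          (∀ v, ‖f v‖ ≤ C) ∧ (∀ u v, G.Adj u v → ‖f u - f v‖ ≤ ε) ∧
          2 * (Finset.univ.filter fun p : Fin n × Fin n => ‖f p.1 - f p.2‖ < 1 / 2).card ≤ n ^ 2 := by
  obtain ⟨X, i1, i2, i3, huc, C, hC, hfam⟩ := Pool.Agent.Helper58.NE.main_space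
  refine ⟨X, i1, i2, i3, huc, ?_, C, 266240, 133120, ?_⟩
  · intro H _ _ F
    refine Pool.Agent.Helper58.NE.no_embedding (C := C) (γ := 266240) (D := 133120) hC
      (fun ε hε => ?_) F
    obtain ⟨n, G, g, -, hn, -, hD, hP, hF⟩ := hfam ε hε 0
    exact ⟨n, G, g, hn, hD, hP, hF⟩
  · intro ε hε n₀
    obtain ⟨n, G, f, h1, -, h2, h3, h4, h5⟩ := hfam ε hε n₀
    exact ⟨n, G, f, h1, h2, h3, h4, h5.bdd, h5.edge, h5.far⟩

end Pool.Agent.Results.MP_460089_an.ExpandersFail
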