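import Pool.Agent.Helper82.MK.Fwd
import Pool.Agent.Helper82.MK.Bwd

/-!
# MP_460089_an: a criterion with Markov operators for uniform embeddability of unit balls

The definitions `act`, `Wt`, `Mk`, `UCN`, `MCurved` are in `Pool.Agent.Helper82.MK.Defs`.
-/

universe u

namespace Pool.Agent.Results.MP_460089_an.MarkovCriterion

open Pool.Agent.Helper82.MK

/-- The closed unit ball of `X` embeds uniformly into a real Hilbert space. -/
def BallEmbeds (X : Type u) [NormedAddCommGroup X] [NormedSpace ℝ X] : Prop :=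
  ∃ (H : Type u) (_ : NormedAddCommGroup H) (_ : InnerProductSpace ℝ H) (_ : CompleteSpace H)
    (F : Metric.closedBall (0 : X) 1 → H), IsUniformEmbedding F

/-- The closed unit ball of `X` embeds uniformly into a real Hilbert space by a map `F` with
`‖F x - F y‖² ≤ 2 ‖x - y‖`. -/
def BallEmbedsHalf (X : Type u) [NormedAddCommGroup X] [NormedSpace ℝ X] : Prop :=
  ∃ (H : Type u) (_ : NormedAddCommGroup H) (_ : InnerProductSpace ℝ H) (_ : CompleteSpace H)
    (F : Metric.closedBall (0 : X) 1 → H), IsUniformEmbedding F ∧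
      ∀ x y, ‖F x - F y‖ ^ 2 ≤ 2 * ‖(x : X) - (y : X)‖

/-- For a space with an equivalent uniformly convex norm the closed unit ball embeds uniformly into
a Hilbert space if and only if `X` satisfies the Markov criterion, and then there is such an
embedding with `‖F x - F y‖² ≤ 2 ‖x - y‖`. -/
theorem result (X : Type u) [NormedAddCommGroup X] [NormedSpace ℝ X]
    (hsr : ∃ (N : X → ℝ) (c C : ℝ), UCN X N c C) :
    (BallEmbeds X ↔ MCurved X) ∧ (BallEmbeds X ↔ BallEmbedsHalf X) := by
  obtain ⟨N, c, C, h⟩ := hsr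
  have h1 : BallEmbeds X → MCurved X := by
    rintro ⟨H, i1, i2, i3, F, hF⟩
    exact mcurved_of_embedding h F hF
  have h2 : MCurved X → BallEmbedsHalf X := fun hX => exists_embedding h hX
  have h3 : BallEmbedsHalf X → BallEmbeds X := by
    rintro ⟨H, i1, i2, i3, F, hF, -⟩
    exact ⟨H, i1, i2, i3, F, hF⟩
  exact ⟨⟨h1, fun hX => h3 (h2 hX)⟩, ⟨fun hB => h2 (h1 hB), h3⟩⟩

end Pool.Agent.Results.MP_460089_an.MarkovCriterion
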