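import Pool.Agent.Helper25.NU.Main
import Pool.Agent.Helper25.NU.NotCurved
import Pool.Agent.Helper25.NU.NotMarkov

/-!
# MP_460089_an: a uniformly convex space which is not uniformly curved

The definitions `act`, `Wt`, `Mk`, `UCurved` are in `Pool.Agent.Helper82.MK.Defs`.
-/

namespace Pool.Agent.Results.MP_460089_an.NotUniformlyCurved

open Pool.Agent.Helper82.MK Pool.Agent.Helper25.NU

/-- There is a real Banach space with a uniformly convex norm which is not uniformly curved in the
sense of Pisier.  Moreover the one-step Markov criterion fails for it: there are symmetric Markov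
matrices `M`, `P` on finite probability spaces such that `(1 - M) P` is arbitrarily small on `L_2`, but
not small from `L_∞(X)` to `L_1(X)`. -/
theorem result :
    ∃ (X : Type) (_ : NormedAddCommGroup X) (_ : NormedSpace ℝ X) (_ : CompleteSpace X),
      UniformConvexSpace X ∧ ¬ UCurved X ∧
      ∃ η : ℝ, 0 < η ∧ ∀ δ : ℝ, 0 < δ →
        ∃ (n : ℕ) (w : Fin n → ℝ) (M P : Matrix (Fin n) (Fin n) ℝ), Wt w ∧ Mk w M ∧ Mk w P ∧
          (∀ g : Fin n → ℝ,
            ∑ i, w i * (act ((1 - M) * P) g i) ^ 2 ≤ δ ^ 2 * ∑ i, w i * (g i) ^ 2) ∧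
          ∃ f : Fin n → X, (∀ i, ‖f i‖ ≤ 1) ∧ η ≤ ∑ i, w i * ‖act ((1 - M) * P) f i‖ := by
  obtain ⟨X, i1, i2, i3, huc, c, hc, h⟩ := main_space
  exact ⟨X, i1, i2, i3, huc, not_UCurved hc h, not_Markov hc h⟩

end Pool.Agent.Results.MP_460089_an.NotUniformlyCurved
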