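import Pool.Agent.Helper82.MK.Fwd
import Pool.Agent.Helper82.MK.UCur

/-!
# MP_460089_an: unit balls of uniformly curved spaces embed uniformly into Hilbert space

The definitions `act`, `UCN`, `UCurved` are in `Pool.Agent.Helper82.MK.Defs`.
-/

universe u

namespace Pool.Agent.Results.MP_460089_an.UniformlyCurved

open Pool.Agent.Helper82.MK

/-- If a real Banach space `X` has an equivalent uniformly convex norm and is uniformly curved in
the sense of Pisier, then its closed unit ball embeds uniformly into a Hilbert space, by a map with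
`‖F x - F y‖² ≤ 2 ‖x - y‖`. -/
theorem result (X : Type u) [NormedAddCommGroup X] [NormedSpace ℝ X]
    (hsr : ∃ (N : X → ℝ) (c C : ℝ), UCN X N c C) (huc : UCurved X) :
    ∃ (H : Type u) (_ : NormedAddCommGroup H) (_ : InnerProductSpace ℝ H) (_ : CompleteSpace H)
      (F : Metric.closedBall (0 : X) 1 → H), IsUniformEmbedding F ∧
        ∀ x y, ‖F x - F y‖ ^ 2 ≤ 2 * ‖(x : X) - (y : X)‖ := by
  obtain ⟨N, c, C, h⟩ := hsr
  exact exists_embedding h huc.mcurved

end Pool.Agent.Results.MP_460089_an.UniformlyCurved
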